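import Mathlib

/-!
# Subtractive closure does not commute with ideal products in `ℕ[X, Y, Z]`
-/

set_option autoImplicit false

namespace Pool.Agent.Results.MP_05a6d5_al.ProductFails

/-- An ideal `I` of a commutative semiring is subtractive if `x ∈ I` and `x + y ∈ I` imply
`y ∈ I`. -/
def IsSubtractive {H : Type} [CommSemiring H] (I : Ideal H) : Prop :=
  ∀ x y : H, x ∈ I → x + y ∈ I → y ∈ I

/-- The subtractive closure: the smallest subtractive ideal containing `I`. -/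
def scl {H : Type} [CommSemiring H] (I : Ideal H) : Ideal H :=
  sInf {K | I ≤ K ∧ IsSubtractive K}

/-- zerosumfree semirings -/
def IsZerosumfree (S₀ : Type) [CommSemiring S₀] : Prop :=
  ∀ a b : S₀, a + b = 0 → a = 0 ∧ b = 0

lemma le_scl {H : Type} [CommSemiring H] (I : Ideal H) : I ≤ scl I :=
  le_sInf fun _ hK => hK.1

lemma scl_le {H : Type} [CommSemiring H] (I K : Ideal H) (h : I ≤ K) (hK : IsSubtractive K) :
    scl I ≤ K := sInf_le ⟨h, hK⟩

lemma isSubtractive_scl {H : Type} [CommSemiring H] (I : Ideal H) : IsSubtractive (scl I) := by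
  intro x y hx hxy
  rw [scl, Submodule.mem_sInf] at *
  intro K hK
  exact hK.2 x y (hx K hK) (hxy K hK)

/-- the substitution `X ↦ X, Y ↦ 0, Z ↦ 0` -/
noncomputable def φ : MvPolynomial (Fin 3) ℕ →+* Polynomial ℕ :=
  MvPolynomial.eval₂Hom (Polynomial.C) ![Polynomial.X, 0, 0]

/-- the substitution `X ↦ -1` -/
noncomputable def ev : Polynomial ℕ →+* ℤ := Polynomial.eval₂RingHom (Nat.castRingHom ℤ) (-1)

/-- the ideal generated by `1 + X` -/
noncomputable def I₀ : Ideal (MvPolynomial (Fin 3) ℕ) := Ideal.span {1 + MvPolynomial.X 0}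

lemma ev_of_mem (a : MvPolynomial (Fin 3) ℕ) (ha : a ∈ scl I₀) : ev (φ a) = 0 := by
  have h : scl I₀ ≤ RingHom.ker (ev.comp φ) := by
    apply scl_le
    · rw [I₀, Ideal.span_le, Set.singleton_subset_iff]
      rw [SetLike.mem_coe, RingHom.mem_ker]
      simp [φ, ev]
    · intro x y hx hxy
      rw [RingHom.mem_ker] at *
      rw [map_add, hx, zero_add] at hxy
      exact hxy
  have := h ha
  rwa [RingHom.mem_ker] at this

lemma exists_opposite (a : Polynomial ℕ) (h : ev a = 0) (i : ℕ) (hi : a.coeff i ≠ 0) :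
    ∃ j, a.coeff j ≠ 0 ∧ (Even j ↔ ¬ Even i) := by
  by_contra hc
  push Not at hc
  have h1 : ev a * (-1) ^ i = ∑ k ∈ a.support, (a.coeff k : ℤ) := by
    simp only [ev, Polynomial.coe_eval₂RingHom, Polynomial.eval₂_eq_sum, Polynomial.sum]
    rw [Finset.sum_mul]
    refine Finset.sum_congr rfl fun k hk => ?_
    have hk' := hc k (Polynomial.mem_support_iff.1 hk)
    have h2 : Even (k + i) := by
      rw [Nat.even_add]
      tauto
    rw [mul_assoc, ← pow_add, h2.neg_one_pow, mul_one]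
    simp
  rw [h, zero_mul] at h1
  have h2 : 0 < ∑ k ∈ a.support, (a.coeff k : ℤ) := by
    apply Finset.sum_pos
    · intro k hk
      have := Polynomial.mem_support_iff.1 hk
      exact_mod_cast Nat.pos_of_ne_zero this
    · exact ⟨i, Polynomial.mem_support_iff.2 hi⟩
  omega

/-- the additive property -/
def Good (r : Polynomial ℕ) : Prop :=
  r.coeff 4 ≠ 0 → ∃ o₁ o₂ e : ℕ, r.coeff o₁ ≠ 0 ∧ r.coeff o₂ ≠ 0 ∧ r.coeff e ≠ 0 ∧
    ¬ Even o₁ ∧ ¬ Even o₂ ∧ Even e ∧ o₁ + o₂ = 4 + e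

lemma good_add (r s : Polynomial ℕ) (hr : Good r) (hs : Good s) : Good (r + s) := by
  intro h
  rw [Polynomial.coeff_add] at h
  have h1 : r.coeff 4 ≠ 0 ∨ s.coeff 4 ≠ 0 := by omega
  rcases h1 with h1 | h1
  · obtain ⟨o₁, o₂, e, h2, h3, h4, h5⟩ := hr h1
    exact ⟨o₁, o₂, e, by rw [Polynomial.coeff_add]; omega, by rw [Polynomial.coeff_add]; omega,
      by rw [Polynomial.coeff_add]; omega, h5⟩
  · obtain ⟨o₁, o₂, e, h2, h3, h4, h5⟩ := hs h1
    exact ⟨o₁, o₂, e, by rw [Polynomial.coeff_add]; omega, by rw [Polynomial.coeff_add]; omega,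
      by rw [Polynomial.coeff_add]; omega, h5⟩

lemma coeff_mul_ne (a b : Polynomial ℕ) (i j : ℕ) (hi : a.coeff i ≠ 0) (hj : b.coeff j ≠ 0) :
    (a * b).coeff (i + j) ≠ 0 := by
  rw [Polynomial.coeff_mul]
  have h1 : a.coeff i * b.coeff j ≤
      ∑ x ∈ Finset.HasAntidiagonal.antidiagonal (i + j), a.coeff x.1 * b.coeff x.2 :=
    Finset.single_le_sum (f := fun x : ℕ × ℕ => a.coeff x.1 * b.coeff x.2)
      (fun _ _ => Nat.zero_le _)
      (Finset.HasAntidiagonal.mem_antidiagonal.2 (rfl : (i, j).1 + (i, j).2 = i + j))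
  have h2 : 0 < a.coeff i * b.coeff j :=
    Nat.mul_pos (Nat.pos_of_ne_zero hi) (Nat.pos_of_ne_zero hj)
  omega

lemma good_mul (a b : Polynomial ℕ) (ha : ev a = 0) (hb : ev b = 0) : Good (a * b) := by
  intro h
  rw [Polynomial.coeff_mul] at h
  obtain ⟨⟨i, j⟩, hij, hne⟩ := Finset.exists_ne_zero_of_sum_ne_zero h
  rw [Finset.HasAntidiagonal.mem_antidiagonal] at hij
  simp only at hij hne
  have hi : a.coeff i ≠ 0 := left_ne_zero_of_mul hne
  have hj : b.coeff j ≠ 0 := right_ne_zero_of_mul hne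
  obtain ⟨i', hi', hpi⟩ := exists_opposite a ha i hi
  obtain ⟨j', hj', hpj⟩ := exists_opposite b hb j hj
  have h4 : Even (i + j) := by rw [hij]; decide
  rw [Nat.even_add] at h4
  refine ⟨i' + j, i + j', i' + j', coeff_mul_ne a b _ _ hi' hj, coeff_mul_ne a b _ _ hi hj',
    coeff_mul_ne a b _ _ hi' hj', ?_, ?_, ?_, by omega⟩
  · rw [Nat.even_add]; tauto
  · rw [Nat.even_add]; tauto
  · rw [Nat.even_add]; tauto

/-- the polynomial `X⁴ + 4 X + 3 = (1 + X)² (X² - 2 X + 3)` -/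
noncomputable def h₀ : MvPolynomial (Fin 3) ℕ :=
  MvPolynomial.X 0 ^ 4 + 4 * MvPolynomial.X 0 + 3

lemma h₀_mem : h₀ ∈ scl (I₀ * I₀) := by
  have h1 : ∀ g : MvPolynomial (Fin 3) ℕ,
      (1 + MvPolynomial.X 0) * (1 + MvPolynomial.X 0) * g ∈ scl (I₀ * I₀) := by
    intro g
    apply le_scl
    have hx : (1 + MvPolynomial.X 0 : MvPolynomial (Fin 3) ℕ) ∈ I₀ :=
      Ideal.subset_span rfl
    exact Ideal.mul_mem_right _ _ (Ideal.mul_mem_mul hx hx)
  refine isSubtractive_scl _ _ _ (h1 (2 * MvPolynomial.X 0)) ?_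
  have h2 : (1 + MvPolynomial.X 0) * (1 + MvPolynomial.X 0) * (2 * MvPolynomial.X 0) + h₀ =
      (1 + MvPolynomial.X 0) * (1 + MvPolynomial.X 0) * (MvPolynomial.X 0 ^ 2 + 3) := by
    rw [h₀]
    ring
  rw [h2]
  exact h1 _

lemma φ_h₀ : φ h₀ = Polynomial.X ^ 4 + Polynomial.C 4 * Polynomial.X + Polynomial.C 3 := by
  simp [φ, h₀]

lemma coeff_φ_h₀ (n : ℕ) (h : (φ h₀).coeff n ≠ 0) : n = 0 ∨ n = 1 ∨ n = 4 := by
  rw [φ_h₀, Polynomial.coeff_add, Polynomial.coeff_add, Polynomial.coeff_C_mul,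
    Polynomial.coeff_X_pow, Polynomial.coeff_X, Polynomial.coeff_C] at h
  by_contra hc
  push Not at hc
  rw [if_neg hc.2.2, if_neg (fun h' => hc.2.1 h'.symm), if_neg hc.1] at h
  simp at h

lemma h₀_not_mem : h₀ ∉ scl I₀ * scl I₀ := by
  intro h
  have h1 : Good (φ h₀) := by
    refine Submodule.mul_induction_on h (C := fun r => Good (φ r)) ?_ ?_
    · intro a ha b hb
      rw [map_mul]
      exact good_mul _ _ (ev_of_mem a ha) (ev_of_mem b hb)
    · intro x y hx hy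
      rw [map_add]
      exact good_add _ _ hx hy
  have h2 : (φ h₀).coeff 4 ≠ 0 := by
    rw [φ_h₀, Polynomial.coeff_add, Polynomial.coeff_add, Polynomial.coeff_C_mul,
      Polynomial.coeff_X_pow, Polynomial.coeff_X, Polynomial.coeff_C]
    simp
  obtain ⟨o₁, o₂, e, h3, h4, h5, h6, h7, h8, h9⟩ := h1 h2
  have h3' := coeff_φ_h₀ _ h3
  have h4' := coeff_φ_h₀ _ h4
  have h5' := coeff_φ_h₀ _ h5
  rcases h3' with rfl | rfl | rfl
  · exact h6 (by decide)
  · rcases h4' with rfl | rfl | rfl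
    · exact h7 (by decide)
    · omega
    · exact h7 (by decide)
  · exact h6 (by decide)

/-- The semiring `ℕ` is zerosumfree and there are ideals `I, J` of `ℕ[X, Y, Z]` with
`scl(I) scl(J) ≠ scl(I J)`. So the question has a negative answer. -/
theorem result :
    (IsZerosumfree ℕ ∧ ∃ I J : Ideal (MvPolynomial (Fin 3) ℕ), scl I * scl J ≠ scl (I * J)) ∧
    ¬ ∀ (S₀ : Type) [CommSemiring S₀] [Nontrivial S₀], IsZerosumfree S₀ →
      ∀ I J : Ideal (MvPolynomial (Fin 3) S₀), scl I * scl J = scl (I * J) := by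
  have h1 : IsZerosumfree ℕ := fun a b h => by omega
  have h2 : scl I₀ * scl I₀ ≠ scl (I₀ * I₀) := by
    intro h
    exact h₀_not_mem (h ▸ h₀_mem)
  exact ⟨⟨h1, I₀, I₀, h2⟩, fun H => h2 (H ℕ h1 I₀ I₀)⟩

end Pool.Agent.Results.MP_05a6d5_al.ProductFails
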